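import Mathlib
import Pool.Agent.Helper93.Sph.G

/-!
# Ball partial sums in `L²(ℝⁿ)`: energy of the path `R ↦ S_R f(x)`, arithmetic progressions of radii

For `f ∈ L²(ℝⁿ)` with Fourier transform `G` the path `R ↦ S_R f(x)` has, for almost every `x`,
finite energy (supremum of `∑ |S_{R_{i+1}} f - S_{R_i} f|² / (R_{i+1} - R_i)` over all partitions),
and the integral of the energy over a ball of radius `ρ` is at most `10 n^{3/2} ρ ‖f‖₂²`.
Consequently `S_R f(x)` converges as `R → ∞` as soon as it converges along an arithmetic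
progression of radii.
-/

set_option autoImplicit false

open MeasureTheory Metric Filter Topology
open scoped ENNReal RealInnerProductSpace

namespace Pool.Agent.Results.MP_ee701d_an.OscillationAtUnitScale

/-- Euclidean space -/
abbrev E (n : ℕ) := EuclideanSpace ℝ (Fin n)

/-- the ball partial sum `S_R f(x)` of the function `f` with Fourier transform `G` -/
noncomputable def S {n : ℕ} (G : E n → ℂ) (R : ℝ) (x : E n) : ℂ :=
  ∫ ξ in closedBall (0 : E n) R, Complex.exp (2 * Real.pi * Complex.I * ((⟪x, ξ⟫ : ℝ) : ℂ)) * G ξ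

theorem result {n : ℕ} (hn : 1 ≤ n) (G : E n → ℂ) (hG : MemLp G 2 volume) :
    ∃ V : E n → ℝ≥0∞, Measurable V ∧
      (∀ (x₀ : E n) (ρ : ℝ), 0 < ρ →
        ∫⁻ x in closedBall x₀ ρ, V x ≤ ENNReal.ofReal (10 * n * √n * ρ) * ∫⁻ ξ, ‖G ξ‖ₑ ^ 2) ∧
      (∀ (x : E n) (R : ℕ → ℝ), Monotone R → 0 ≤ R 0 →
        ∑' i : ℕ, ‖S G (R (i + 1)) x - S G (R i) x‖ₑ ^ 2 / ENNReal.ofReal (R (i + 1) - R i)
          ≤ V x) ∧
      ∀ᵐ x : E n, ∀ h : ℝ, 0 < h → ∀ L : ℂ,
        (Tendsto (fun R : ℝ => S G R x) atTop (𝓝 L) ↔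
          Tendsto (fun k : ℕ => S G (h * k) x) atTop (𝓝 L)) := by
  obtain ⟨m, rfl⟩ : ∃ m, n = m + 1 := ⟨n - 1, by omega⟩
  refine ⟨Pool.Agent.Helper93.Sph.energy G, Pool.Agent.Helper93.Sph.energy_meas hG, ?_, ?_, ?_⟩
  · intro x₀ ρ hρ
    have h := Pool.Agent.Helper93.Sph.energy_bound hG x₀ hρ
    push_cast
    exact h
  · intro x R hR h0
    rw [ENNReal.tsum_eq_iSup_nat]
    exact iSup_le fun N => Pool.Agent.Helper93.Sph.energy_partition hG x R hR h0 N
  · filter_upwards [Pool.Agent.Helper93.Sph.energy_fin hG] with x hx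
    intro h hh L
    exact Pool.Agent.Helper93.Sph.conv_iff hG hx hh L

end Pool.Agent.Results.MP_ee701d_an.OscillationAtUnitScale
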