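import Mathlib
import Pool.Agent.Helper93.Sph.R

/-!
# Ball partial sums after multiplication of the Fourier transform by random radial signs

Let `f ∈ L²(ℝⁿ)`, let `G` be its Fourier transform and let `f_ω` be the function whose Fourier
transform is `ε_k(ω) G` on the annulus `k h ≤ |ξ| < (k + 1) h`, with independent mean zero
`ε_k ∈ [-1, 1]`. The maximal function `sup_R |S_R f_ω|` is in `L²` of every ball, with an expected
square norm at most `100 n^{3/2} ρ h ‖f‖₂²` for balls of radius `ρ`, and almost surely `S_R f_ω`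
converges almost everywhere.
-/

set_option autoImplicit false

open MeasureTheory ProbabilityTheory Metric Filter Topology
open scoped ENNReal RealInnerProductSpace

namespace Pool.Agent.Results.MP_ee701d_an.RandomRadialSigns

/-- Euclidean space -/
abbrev E (n : ℕ) := EuclideanSpace ℝ (Fin n)

/-- the ball partial sum `S_R f(x)` of the function `f` with Fourier transform `G` -/
noncomputable def S {n : ℕ} (G : E n → ℂ) (R : ℝ) (x : E n) : ℂ :=
  ∫ ξ in closedBall (0 : E n) R, Complex.exp (2 * Real.pi * Complex.I * ((⟪x, ξ⟫ : ℝ) : ℂ)) * G ξ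

/-- the function `G` multiplied by `e k` on the annulus `k h ≤ |ξ| < (k + 1) h` -/
noncomputable def signed {n : ℕ} (h : ℝ) (e : ℕ → ℝ) (G : E n → ℂ) : E n → ℂ :=
  fun ξ => (e ⌊‖ξ‖ / h⌋₊ : ℂ) * G ξ

theorem result {n : ℕ} (hn : 1 ≤ n) (G : E n → ℂ) (hG : MemLp G 2 volume) {h : ℝ} (hh : 0 < h)
    {Ω : Type*} [MeasurableSpace Ω] (P : Measure Ω) [IsProbabilityMeasure P] (ε : ℕ → Ω → ℝ)
    (hm : ∀ k, Measurable (ε k)) (hind : iIndepFun ε P) (hb : ∀ k ω, |ε k ω| ≤ 1)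
    (h0 : ∀ k, ∫ ω, ε k ω ∂P = 0) :
    (∀ (x₀ : E n) (ρ : ℝ), 0 < ρ →
      ∫⁻ x in closedBall x₀ ρ, ∫⁻ ω, (⨆ R : ℝ, ‖S (signed h (fun k => ε k ω) G) R x‖ₑ ^ 2) ∂P
        ≤ ENNReal.ofReal (100 * n * √n * ρ * h) * ∫⁻ ξ, ‖G ξ‖ₑ ^ 2) ∧
      ∀ᵐ ω ∂P, ∀ᵐ x : E n, ∃ L : ℂ,
        Tendsto (fun R : ℝ => S (signed h (fun k => ε k ω) G) R x) atTop (𝓝 L) := by
  obtain ⟨m, rfl⟩ : ∃ m, n = m + 1 := ⟨n - 1, by omega⟩
  have hε : Pool.Agent.Helper93.Sph.Noise P ε := ⟨hm, hind, hb, h0⟩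
  refine ⟨fun x₀ ρ hρ => ?_, Pool.Agent.Helper93.Sph.rad_conv hh hε hG⟩
  have h1 := Pool.Agent.Helper93.Sph.maj_int hh hε hG x₀ hρ
  push_cast
  refine le_trans (lintegral_mono fun x => lintegral_mono fun ω => ?_) h1
  exact iSup_le fun R => Pool.Agent.Helper93.Sph.maj_bound hh hb hG x ω R

end Pool.Agent.Results.MP_ee701d_an.RandomRadialSigns
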