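import Mathlib
import Pool.Agent.Helper93.Sph.W4

/-!
# The maximal ball partial sum operator after randomization on unit cubes in frequency

Let `f ∈ L²(ℝⁿ)`, let `G` be its Fourier transform and let `f_ω` have the Fourier transform
`ε_Q(ω) G` on the unit cube `Q` of the integer grid, with independent mean zero `ε_Q ∈ [-1, 1]`.
For every `2 < p ≤ 4` the maximal function `sup_R |S_R f_ω|` is the sum of a function bounded in
`L²(Ω × ℝⁿ)` and a function bounded in `L^p(Ω × ℝⁿ)`, and almost surely `S_R f_ω` converges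
almost everywhere.
-/

set_option autoImplicit false

open MeasureTheory ProbabilityTheory Metric Filter Topology
open scoped ENNReal NNReal RealInnerProductSpace

universe u

namespace Pool.Agent.Results.MP_ee701d_an.UnitCubeRandomization

/-- Euclidean space -/
abbrev E (n : ℕ) := EuclideanSpace ℝ (Fin n)

/-- the ball partial sum `S_R f(x)` of the function `f` with Fourier transform `G` -/
noncomputable def S {n : ℕ} (G : E n → ℂ) (R : ℝ) (x : E n) : ℂ :=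
  ∫ ξ in closedBall (0 : E n) R, Complex.exp (2 * Real.pi * Complex.I * ((⟪x, ξ⟫ : ℝ) : ℂ)) * G ξ

/-- the function `G` multiplied by `e κ` on the cube `{ξ | ⌊ξ i⌋ = κ i for all i}`, `κ ∈ ℤⁿ` -/
noncomputable def randomized {n : ℕ} (e : (Fin n → ℤ) → ℝ) (G : E n → ℂ) : E n → ℂ :=
  fun ξ => (e (fun i => ⌊ξ i⌋) : ℂ) * G ξ

theorem result {n : ℕ} (hn : 1 ≤ n) {p : ℝ} (hp2 : 2 < p) (hp4 : p ≤ 4) :
    ∃ C : ℝ≥0, ∀ G : E n → ℂ, MemLp G 2 volume →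
      ∀ {Ω : Type u} [MeasurableSpace Ω] (P : Measure Ω) [IsProbabilityMeasure P]
        (ε : (Fin n → ℤ) → Ω → ℝ), (∀ κ, Measurable (ε κ)) → iIndepFun ε P →
        (∀ κ ω, |ε κ ω| ≤ 1) → (∀ κ, ∫ ω, ε κ ω ∂P = 0) →
        (∃ M N : Ω × E n → ℝ≥0∞, Measurable M ∧ Measurable N ∧
          (∀ (ω : Ω) (x : E n) (R : ℝ),
            ‖S (randomized (fun κ => ε κ ω) G) R x‖ₑ ≤ M (ω, x) + N (ω, x)) ∧
          ∫⁻ z, M z ^ 2 ∂(P.prod volume) ≤ 4 * ∫⁻ ξ, ‖G ξ‖ₑ ^ 2 ∧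
          ∫⁻ z, N z ^ p ∂(P.prod volume) ≤ C * (∫⁻ ξ, ‖G ξ‖ₑ ^ 2) ^ (p / 2)) ∧
        ∀ᵐ ω ∂P, ∀ᵐ x : E n, ∃ L : ℂ,
          Tendsto (fun R : ℝ => S (randomized (fun κ => ε κ ω) G) R x) atTop (𝓝 L) := by
  obtain ⟨m, rfl⟩ : ∃ m, n = m + 1 := ⟨n - 1, by omega⟩
  set C : ℝ≥0∞ := 2 ^ (p - 1) * (Pool.Agent.Helper93.Sph.C1 m p + Pool.Agent.Helper93.Sph.C2 m p)
    with hC
  have hCt : C ≠ ⊤ := by
    refine ENNReal.mul_ne_top (ENNReal.rpow_ne_top_of_nonneg (by linarith) (by simp)) ?_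
    exact (ENNReal.add_lt_top.2 ⟨Pool.Agent.Helper93.Sph.C1_lt m hp2,
      Pool.Agent.Helper93.Sph.C2_lt m hp2⟩).ne
  refine ⟨C.toNNReal, fun G hG Ω _ P _ ε hm hind hb h0 => ?_⟩
  have hε : Pool.Agent.Helper93.Sph.Noise P ε := ⟨hm, hind, hb, h0⟩
  refine ⟨⟨Pool.Agent.Helper93.Sph.MM ε G, Pool.Agent.Helper93.Sph.NN p ε G,
    Pool.Agent.Helper93.Sph.MM_meas hε hG, Pool.Agent.Helper93.Sph.NN_meas hε hG p, ?_,
    Pool.Agent.Helper93.Sph.MM_int hε hG, ?_⟩, Pool.Agent.Helper93.Sph.cube_conv hε hG⟩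
  · intro ω x R
    exact Pool.Agent.Helper93.Sph.Sw_le hε hG hp2 (ω, x) R
  · rw [ENNReal.coe_toNNReal hCt]
    exact Pool.Agent.Helper93.Sph.NN_int hε hG hp2 hp4

end Pool.Agent.Results.MP_ee701d_an.UnitCubeRandomization
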